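import Pool.Agent.Y19.QT.Defs
import Pool.Agent.H987R2.RZ_P2
import Pool.Agent.H987R2.RZ_P3

set_option autoImplicit false

/-! Project QT, task T1: Gauss sums of products of two squarefree numbers. -/

namespace Pool.Agent.Y494.QT1

open Finset
open Pool.Agent.H306R2.RZ (js Gk cas)
open Pool.Agent.Y19.QT (hb)

noncomputable section

lemma Gk_add (k t : ℤ) (n : ℕ) (hn : 0 < n) : Gk (k + n * t) n = Gk k n := by
  unfold Gk
  refine Finset.sum_congr rfl fun r _ => ?_
  congr 1
  have hn' : (n : ℝ) ≠ 0 := by positivity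
  have h1 : 2 * Real.pi * ((k + n * t : ℤ) : ℝ) * (r : ℝ) / (n : ℝ) =
      2 * Real.pi * (k : ℝ) * (r : ℝ) / (n : ℝ) + 2 * Real.pi * ((t * (r : ℤ) : ℤ) : ℝ) := by
    push_cast
    field_simp
  rw [h1, Pool.Agent.H987R2.RZ.cas_add_int]

lemma js_mul (k : ℤ) (m n : ℕ) (hm : 0 < m) (hn : 0 < n) : js k (m * n) = js k m * js k n := by
  have : NeZero m := ⟨hm.ne'⟩
  have : NeZero n := ⟨hn.ne'⟩
  unfold js
  rw [jacobiSym.mul_right]
  push_cast
  rfl

lemma js_dvd {p : ℕ} (hp : p.Prime) {k : ℤ} (h : (p : ℤ) ∣ k) : js k p = 0 := by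
  unfold js
  have : jacobiSym k p = 0 := by
    rw [jacobiSym.eq_zero_iff]
    refine ⟨hp.ne_zero, ?_⟩
    intro h1
    have h2 : (p : ℤ) ∣ (k.gcd p : ℤ) := Int.dvd_coe_gcd h (dvd_refl _)
    rw [h1] at h2
    have h3 : p ∣ 1 := by exact_mod_cast h2
    exact hp.one_lt.ne' (Nat.dvd_one.1 h3)
  rw [this]
  simp

lemma js_sq_not_dvd {p : ℕ} (hp : p.Prime) {k : ℤ} (h : ¬ (p : ℤ) ∣ k) : js k p * js k p = 1 := by
  unfold js
  have h1 : jacobiSym k p ^ 2 = 1 := by
    refine jacobiSym.sq_one ?_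
    rw [← Int.isCoprime_iff_gcd_eq_one]
    exact ((Nat.prime_iff_prime_int.1 hp).coprime_iff_not_dvd.2 h).symm
  have h2 : ((jacobiSym k p : ℤ) : ℝ) ^ 2 = 1 := by exact_mod_cast h1
  rw [← sq]
  exact h2

/-- nonzero integers are a power of `p` times an integer prime to `p` -/
lemma split {p : ℕ} (hp : p.Prime) {k : ℤ} (hk : k ≠ 0) :
    ∃ (a : ℕ) (l : ℤ), k = (p : ℤ) ^ a * l ∧ ¬ (p : ℤ) ∣ l := by
  have hf : FiniteMultiplicity (p : ℤ) k := by
    rw [Int.finiteMultiplicity_iff]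
    refine ⟨?_, hk⟩
    simp only [Int.natAbs_natCast]
    exact hp.one_lt.ne'
  obtain ⟨l, hl, hl2⟩ := hf.exists_eq_pow_mul_and_not_dvd
  exact ⟨_, l, hl, hl2⟩

lemma Gk_p_aux {p : ℕ} (hp : p.Prime) (hp2 : p ≠ 2) {k : ℤ} (hk : k ≠ 0) :
    Gk k p = js k p * Real.sqrt p ∧
    Gk k (p ^ 2) = p * (js k p * js k p + (if (p : ℤ) ^ 2 ∣ k then (p : ℝ) - 1 else -1)) := by
  obtain ⟨a, l, rfl, hl⟩ := split hp hk
  have h1 := Pool.Agent.H987R2.RZ.P3 p hp hp2 a 1 le_rfl l hl
  have h2 := Pool.Agent.H987R2.RZ.P3 p hp hp2 a 2 (by norm_num) l hl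
  rw [pow_one] at h1
  rcases Nat.lt_trichotomy a 1 with ha | ha | ha
  · obtain rfl : a = 0 := by omega
    rw [h1, h2]
    have h3 : ¬ ((p : ℤ) ^ 2 ∣ (p : ℤ) ^ 0 * l) := by
      rw [pow_zero, one_mul]
      intro h
      exact hl (dvd_trans (dvd_pow_self _ two_ne_zero) h)
    rw [if_neg h3]
    simp only [pow_zero, one_mul]
    constructor
    · norm_num
    · rw [js_sq_not_dvd hp hl]
      norm_num
  · subst ha
    rw [h1, h2]
    have h3 : ¬ ((p : ℤ) ^ 2 ∣ (p : ℤ) ^ 1 * l) := by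
      rw [pow_one, sq]
      intro h
      exact hl ((mul_dvd_mul_iff_left (by exact_mod_cast hp.ne_zero)).1 h)
    have h4 : js ((p : ℤ) ^ 1 * l) p = 0 := js_dvd hp (by
      rw [pow_one]
      exact dvd_mul_right _ _)
    rw [if_neg h3, h4]
    norm_num
  · rw [h1, h2]
    have h3 : (p : ℤ) ^ 2 ∣ (p : ℤ) ^ a * l := Dvd.dvd.mul_right (pow_dvd_pow _ ha) l
    rw [if_pos h3, js_dvd hp (dvd_trans (dvd_pow_self _ two_ne_zero) h3)]
    rw [if_pos (show 1 ≤ a by omega), if_pos (show 2 ≤ a by omega)]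
    constructor
    · norm_num
    · rw [if_pos (by decide), Nat.totient_prime_pow hp (by norm_num)]
      push_cast [Nat.cast_sub hp.one_lt.le]
      ring

lemma Gk_p {p : ℕ} (hp : p.Prime) (hp2 : p ≠ 2) (k : ℤ) :
    Gk k p = js k p * Real.sqrt p ∧
    Gk k (p ^ 2) = p * (js k p * js k p + (if (p : ℤ) ^ 2 ∣ k then (p : ℝ) - 1 else -1)) := by
  rcases eq_or_ne k 0 with rfl | hk
  · have h1 := Gk_p_aux hp hp2 (k := (p : ℤ) ^ 2) (pow_ne_zero _ (by exact_mod_cast hp.ne_zero))
    have h2 : Gk 0 p = Gk ((p : ℤ) ^ 2) p := by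
      have := Gk_add 0 p p hp.pos
      rw [← this]
      congr 1
      ring
    have h3 : Gk 0 (p ^ 2) = Gk ((p : ℤ) ^ 2) (p ^ 2) := by
      have := Gk_add 0 1 (p ^ 2) (pow_pos hp.pos 2)
      rw [← this]
      congr 1
      push_cast
      ring
    rw [h2, h3, h1.1, h1.2, js_dvd hp (dvd_pow_self _ two_ne_zero), js_dvd hp (dvd_zero _)]
    simp
  · exact Gk_p_aux hp hp2 hk

/-- the right hand side -/
def RH (j : ℤ) (m n : ℕ) : ℝ := ∑ b ∈ (Nat.gcd m n).divisors, hb j b * js j (m / b) * js j (n / b)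

lemma RH_comm (j : ℤ) (m n : ℕ) : RH j m n = RH j n m := by
  unfold RH
  rw [Nat.gcd_comm]
  exact Finset.sum_congr rfl fun b _ => by ring

lemma RH_left {p : ℕ} (hp : p.Prime) (j : ℤ) {m n : ℕ} (hm : 0 < m) (hn : 0 < n)
    (hpn : ¬ p ∣ n) : RH j (p * m) n = js j p * RH j m n := by
  have h1 : Nat.gcd (p * m) n = Nat.gcd m n :=
    Nat.Coprime.gcd_mul_left_cancel m ((Nat.Prime.coprime_iff_not_dvd hp).2 hpn)
  unfold RH
  rw [h1, Finset.mul_sum]
  refine Finset.sum_congr rfl fun b hb => ?_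
  have hbm : b ∣ m := (Nat.dvd_of_mem_divisors hb).trans (Nat.gcd_dvd_left m n)
  have hb0 : 0 < b := Nat.pos_of_dvd_of_pos hbm hm
  rw [Nat.mul_div_assoc _ hbm, js_mul _ _ _ hp.pos (Nat.div_pos (Nat.le_of_dvd hm hbm) hb0)]
  ring

lemma hb_mul {p : ℕ} (hp : p.Prime) (j : ℤ) {b : ℕ} (hb0 : b ≠ 0) (hpb : ¬ p ∣ b) :
    hb j (p * b) = (if (p : ℤ) ^ 2 ∣ j then (p : ℝ) - 1 else -1) * hb j b := by
  unfold hb
  rw [Nat.primeFactors_mul hp.ne_zero hb0, hp.primeFactors, Finset.prod_union]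
  · rw [Finset.prod_singleton]
  · rw [Finset.disjoint_singleton_left]
    intro h
    exact hpb (Nat.dvd_of_mem_primeFactors h)

lemma RH_both {p : ℕ} (hp : p.Prime) (j : ℤ) {m n : ℕ} (hm : 0 < m) (hn : 0 < n)
    (hpm : ¬ p ∣ m) : RH j (p * m) (p * n) =
      (js j p * js j p + (if (p : ℤ) ^ 2 ∣ j then (p : ℝ) - 1 else -1)) * RH j m n := by
  have hg : 0 < Nat.gcd m n := Nat.gcd_pos_of_pos_left _ hm
  have hpg : ¬ p ∣ Nat.gcd m n := fun h => hpm (h.trans (Nat.gcd_dvd_left m n))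
  have hdiv : (p * Nat.gcd m n).divisors = (Nat.gcd m n).divisors ∪
      (Nat.gcd m n).divisors.image (fun b => p * b) := by
    ext d
    simp only [Nat.mem_divisors, Finset.mem_union, Finset.mem_image]
    constructor
    · rintro ⟨h1, _⟩
      by_cases hpd : p ∣ d
      · obtain ⟨e, rfl⟩ := hpd
        exact Or.inr ⟨e, ⟨Nat.dvd_of_mul_dvd_mul_left hp.pos h1, hg.ne'⟩, rfl⟩
      · exact Or.inl ⟨(Nat.Coprime.dvd_of_dvd_mul_left
          ((Nat.Prime.coprime_iff_not_dvd hp).2 hpd).symm h1), hg.ne'⟩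
    · rintro (⟨h1, _⟩ | ⟨e, ⟨h1, _⟩, rfl⟩)
      · exact ⟨h1.trans (dvd_mul_left _ _), (Nat.mul_pos hp.pos hg).ne'⟩
      · exact ⟨Nat.mul_dvd_mul_left p h1, (Nat.mul_pos hp.pos hg).ne'⟩
  have hdisj : Disjoint (Nat.gcd m n).divisors
      ((Nat.gcd m n).divisors.image (fun b => p * b)) := by
    rw [Finset.disjoint_left]
    intro d hd hd'
    obtain ⟨e, _, rfl⟩ := Finset.mem_image.1 hd'
    exact hpg ((dvd_mul_right p e).trans (Nat.dvd_of_mem_divisors hd))
  unfold RH
  rw [Nat.gcd_mul_left, hdiv, Finset.sum_union hdisj, Finset.sum_image, add_mul, Finset.mul_sum,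
    Finset.mul_sum]
  · congr 1
    · refine Finset.sum_congr rfl fun b hb => ?_
      have hbm : b ∣ m := (Nat.dvd_of_mem_divisors hb).trans (Nat.gcd_dvd_left m n)
      have hbn : b ∣ n := (Nat.dvd_of_mem_divisors hb).trans (Nat.gcd_dvd_right m n)
      have hb0 : 0 < b := Nat.pos_of_dvd_of_pos hbm hm
      rw [Nat.mul_div_assoc _ hbm, js_mul _ _ _ hp.pos (Nat.div_pos (Nat.le_of_dvd hm hbm) hb0),
        Nat.mul_div_assoc _ hbn, js_mul _ _ _ hp.pos (Nat.div_pos (Nat.le_of_dvd hn hbn) hb0)]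
      ring
    · refine Finset.sum_congr rfl fun b hb => ?_
      have hbg := Nat.dvd_of_mem_divisors hb
      have hb0 : 0 < b := Nat.pos_of_dvd_of_pos hbg hg
      rw [Nat.mul_div_mul_left _ _ hp.pos, Nat.mul_div_mul_left _ _ hp.pos,
        hb_mul hp j hb0.ne' (fun h => hpg (h.trans hbg))]
      ring
  · intro a _ b _ hab
    exact Nat.eq_of_mul_eq_mul_left hp.pos hab

lemma odd_of_dvd {a b : ℕ} (h : a ∣ b) (hb : Odd b) : Odd a := Odd.of_dvd_nat hb h

theorem T1_aux (N : ℕ) : ∀ (j : ℤ) (m n : ℕ), m * n ≤ N → Squarefree m → Squarefree n → Odd m →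
    Odd n → Gk j (m * n) = Real.sqrt m * Real.sqrt n * RH j m n := by
  induction N with
  | zero =>
    intro j m n h hm hn hmo hno
    have := Nat.mul_pos hmo.pos hno.pos
    omega
  | succ N ih =>
    intro j m n hN hm hn hmo hno
    rcases eq_or_ne (m * n) 1 with h1 | h1
    · obtain ⟨rfl, rfl⟩ : m = 1 ∧ n = 1 := by
        exact ⟨Nat.eq_one_of_mul_eq_one_right h1, Nat.eq_one_of_mul_eq_one_left h1⟩
      simp [Gk, RH, hb, js, cas]
    · -- reduction step, `p ∣ m`
      have step : ∀ (j : ℤ) (m n p : ℕ), p.Prime → m * n ≤ N + 1 → Squarefree m → Squarefree n →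
          Odd m → Odd n → p ∣ m → Gk j (m * n) = Real.sqrt m * Real.sqrt n * RH j m n := by
        intro j m n p hp hN hm hn hmo hno hpm
        have hp2 : p ≠ 2 := by
          rintro rfl
          have := hmo
          rw [← Nat.not_even_iff_odd] at this
          exact this (even_iff_two_dvd.2 hpm)
        obtain ⟨m', rfl⟩ := hpm
        have hm'0 : 0 < m' := Nat.pos_of_ne_zero (by rintro rfl; simp at hmo)
        have hpm' : ¬ p ∣ m' := by
          intro h
          have := hm p (Nat.mul_dvd_mul_left p h)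
          exact hp.one_lt.ne' (Nat.isUnit_iff.1 this)
        have hm' : Squarefree m' := hm.squarefree_of_dvd (dvd_mul_left _ _)
        have hmo' : Odd m' := odd_of_dvd (dvd_mul_left _ _) hmo
        have hpo : Odd p := odd_of_dvd (dvd_mul_right _ _) hmo
        by_cases hpn : p ∣ n
        · obtain ⟨n', rfl⟩ := hpn
          have hn'0 : 0 < n' := Nat.pos_of_ne_zero (by rintro rfl; simp at hno)
          have hpn' : ¬ p ∣ n' := by
            intro h
            have := hn p (Nat.mul_dvd_mul_left p h)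
            exact hp.one_lt.ne' (Nat.isUnit_iff.1 this)
          have hn' : Squarefree n' := hn.squarefree_of_dvd (dvd_mul_left _ _)
          have hno' : Odd n' := odd_of_dvd (dvd_mul_left _ _) hno
          have e1 : p * m' * (p * n') = p ^ 2 * (m' * n') := by ring
          have hcop : (p ^ 2).Coprime (m' * n') := by
            refine Nat.Coprime.pow_left 2 ?_
            rw [Nat.Prime.coprime_iff_not_dvd hp, hp.dvd_mul]
            tauto
          have hlt : m' * n' ≤ N := by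
            have h2 : m' * n' < p * m' * (p * n') := by
              rw [e1]
              have h3 : 0 < m' * n' := Nat.mul_pos hm'0 hn'0
              have h4 : 4 ≤ p ^ 2 := by
                have := hp.two_le
                nlinarith
              nlinarith
            omega
          rw [e1, Pool.Agent.H987R2.RZ.P2 j _ _ (hpo.pow) (hmo'.mul hno') hcop, (Gk_p hp hp2 j).2,
            ih j m' n' hlt hm' hn' hmo' hno', RH_both hp j hm'0 hn'0 hpm']
          push_cast
          rw [Real.sqrt_mul (Nat.cast_nonneg p), Real.sqrt_mul (Nat.cast_nonneg p)]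
          have h5 : Real.sqrt p * Real.sqrt p = p := Real.mul_self_sqrt (Nat.cast_nonneg p)
          linear_combination (-(js j p * js j p + (if (p : ℤ) ^ 2 ∣ j then (p : ℝ) - 1 else -1)) *
            Real.sqrt m' * Real.sqrt n' * RH j m' n') * h5
        · have hn0 : 0 < n := hno.pos
          have e1 : p * m' * n = p * (m' * n) := by ring
          have hcop : p.Coprime (m' * n) := by
            rw [Nat.Prime.coprime_iff_not_dvd hp, hp.dvd_mul]
            tauto
          have hlt : m' * n ≤ N := by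
            have h2 : m' * n < p * m' * n := by
              rw [e1]
              have h3 : 0 < m' * n := Nat.mul_pos hm'0 hn0
              have := hp.two_le
              nlinarith
            omega
          rw [e1, Pool.Agent.H987R2.RZ.P2 j _ _ hpo (hmo'.mul hno) hcop, (Gk_p hp hp2 j).1,
            ih j m' n hlt hm' hn hmo' hno, RH_left hp j hm'0 hn0 hpn]
          push_cast
          rw [Real.sqrt_mul (Nat.cast_nonneg p)]
          ring
      obtain ⟨p, hp, hpd⟩ := Nat.exists_prime_and_dvd h1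
      rcases (hp.dvd_mul).1 hpd with h2 | h2
      · exact step j m n p hp hN hm hn hmo hno h2
      · rw [mul_comm m n, step j n m p hp (by rw [mul_comm]; exact hN) hn hm hno hmo h2, RH_comm]
        ring

theorem T1 (j : ℤ) (m n : ℕ) (hm : Squarefree m) (hn : Squarefree n) (hmo : Odd m) (hno : Odd n) :
    Gk j (m * n) = Real.sqrt m * Real.sqrt n *
      ∑ b ∈ (Nat.gcd m n).divisors, hb j b * js j (m / b) * js j (n / b) :=
  T1_aux _ j m n le_rfl hm hn hmo hno

end

end Pool.Agent.Y494.QT1
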