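import Pool.Agent.Y19.QT.Defs
import Pool.Agent.H987R2.RZ_P2
import Pool.Agent.H509R2.RZ_P1

set_option autoImplicit false

/-! Project QT, task T2: Poisson summation for quadratic characters with Gaussian weights. -/

namespace Pool.Agent.Y494.QT2

open Finset
open Pool.Agent.H306R2.RZ (js Gk cas)

noncomputable section

lemma gauss_summable {c : ℝ} (hc : 0 < c) :
    Summable (fun k : ℤ => Real.exp (-(Real.pi * ((k : ℝ) * c) ^ 2))) := by
  have h1 : Summable (fun k : ℤ => ‖Complex.exp (-Real.pi * ((c ^ 2 : ℝ) : ℂ) * (k : ℂ) ^ 2 +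
      2 * Real.pi * 0 * k)‖) := by
    have h2 := cexp_neg_quadratic_isLittleO_abs_rpow_cocompact (a := ((-(Real.pi * c ^ 2) : ℝ) : ℂ))
      (by rw [Complex.ofReal_re]; have := Real.pi_pos; nlinarith [pow_pos hc 2]) 0 (-2)
    refine (summable_of_isBigO (Real.summable_abs_int_rpow one_lt_two)
      ((h2.isBigO).comp_tendsto Int.tendsto_coe_cofinite)).norm.congr fun k => ?_
    simp only [Function.comp_apply]
    congr 2
    push_cast
    ring
  refine h1.congr fun k => ?_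
  rw [Complex.norm_exp]
  congr 1
  have h3 : (-(Real.pi : ℂ) * ((c ^ 2 : ℝ) : ℂ) * (k : ℂ) ^ 2 + 2 * Real.pi * 0 * k) =
      ((-(Real.pi * ((k : ℝ) * c) ^ 2) : ℝ) : ℂ) := by
    push_cast
    ring
  rw [h3, Complex.ofReal_re]

lemma re_exp (a b : ℝ) :
    (Complex.exp ((a : ℂ) + (b : ℂ) * Complex.I)).re = Real.exp a * Real.cos b := by
  rw [Complex.exp_re]
  simp

lemma norm_exp' (a b : ℝ) :
    ‖Complex.exp ((a : ℂ) + (b : ℂ) * Complex.I)‖ = Real.exp a := by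
  rw [Complex.norm_exp]
  simp

lemma poisson {c : ℝ} (hc : 0 < c) (y : ℝ) :
    ∑' m : ℤ, Real.exp (-(Real.pi * ((y + m) / c) ^ 2)) =
      c * ∑' j : ℤ, Real.exp (-(Real.pi * ((j : ℝ) * c) ^ 2)) * Real.cos (2 * Real.pi * j * y) := by
  have ha : (0 : ℝ) < (((c ^ 2 : ℝ) : ℂ)).re := by
    rw [Complex.ofReal_re]
    positivity
  have h := Complex.tsum_exp_neg_quadratic ha (Complex.I * y)
  have hroot : ((c ^ 2 : ℝ) : ℂ) ^ (1 / 2 : ℂ) = (c : ℂ) := by
    rw [show (1 / 2 : ℂ) = ((1 / 2 : ℝ) : ℂ) by push_cast; rfl, ← Complex.ofReal_cpow (by positivity),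
      ← Real.sqrt_eq_rpow, Real.sqrt_sq hc.le]
  rw [hroot] at h
  have hR : ∑' m : ℤ, Complex.exp (-Real.pi / ((c ^ 2 : ℝ) : ℂ) * (m + Complex.I * (Complex.I * y)) ^ 2) =
      ((∑' m : ℤ, Real.exp (-(Real.pi * ((y + m) / c) ^ 2)) : ℝ) : ℂ) := by
    rw [Complex.ofReal_tsum, ← (Equiv.neg ℤ).tsum_eq]
    refine tsum_congr fun m => ?_
    rw [Complex.ofReal_exp]
    congr 1
    have hI : Complex.I * (Complex.I * (y : ℂ)) = -y := by
      rw [← mul_assoc, Complex.I_mul_I]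
      ring
    simp only [Equiv.neg_apply]
    rw [hI]
    have hc' : (c : ℂ) ≠ 0 := by exact_mod_cast hc.ne'
    push_cast
    field_simp
    ring
  rw [hR] at h
  have hterm : ∀ j : ℤ, (Complex.exp (-Real.pi * ((c ^ 2 : ℝ) : ℂ) * (j : ℂ) ^ 2 +
      2 * Real.pi * (Complex.I * y) * j)).re =
      Real.exp (-(Real.pi * ((j : ℝ) * c) ^ 2)) * Real.cos (2 * Real.pi * j * y) := by
    intro j
    have e1 : (-(Real.pi : ℂ) * ((c ^ 2 : ℝ) : ℂ) * (j : ℂ) ^ 2 + 2 * Real.pi * (Complex.I * y) * j) =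
        ((-(Real.pi * ((j : ℝ) * c) ^ 2) : ℝ) : ℂ) + ((2 * Real.pi * j * y : ℝ) : ℂ) * Complex.I := by
      push_cast
      ring
    rw [e1, re_exp]
  have hs : Summable (fun j : ℤ => Complex.exp (-Real.pi * ((c ^ 2 : ℝ) : ℂ) * (j : ℂ) ^ 2 +
      2 * Real.pi * (Complex.I * y) * j)) := by
    refine Summable.of_norm ((gauss_summable hc).congr fun j => ?_)
    have e1 : (-(Real.pi : ℂ) * ((c ^ 2 : ℝ) : ℂ) * (j : ℂ) ^ 2 + 2 * Real.pi * (Complex.I * y) * j) =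
        ((-(Real.pi * ((j : ℝ) * c) ^ 2) : ℝ) : ℂ) + ((2 * Real.pi * j * y : ℝ) : ℂ) * Complex.I := by
      push_cast
      ring
    rw [e1, norm_exp']
  have h2 := congrArg Complex.re h
  rw [Complex.re_tsum hs, tsum_congr hterm] at h2
  have h3 : (1 / (c : ℂ) * ((∑' m : ℤ, Real.exp (-(Real.pi * ((y + m) / c) ^ 2)) : ℝ) : ℂ)).re =
      1 / c * ∑' m : ℤ, Real.exp (-(Real.pi * ((y + m) / c) ^ 2)) := by
    rw [show (1 / (c : ℂ)) = ((1 / c : ℝ) : ℂ) by push_cast; rfl, ← Complex.ofReal_mul,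
      Complex.ofReal_re]
  rw [h3] at h2
  rw [h2]
  field_simp

lemma js_abs_le (k : ℤ) (n : ℕ) : |js k n| ≤ 1 := by
  unfold js
  rcases jacobiSym.trichotomy k n with h | h | h <;> rw [h] <;> norm_num

/-- bound for the Gauss sums -/
lemma Gk_abs_le (j : ℤ) (n : ℕ) : |Gk j n| ≤ 2 * n := by
  unfold Gk
  refine (Finset.abs_sum_le_sum_abs _ _).trans ?_
  have h : ∀ r ∈ range n, |js (r : ℤ) n * cas (2 * Real.pi * (j : ℝ) * (r : ℝ) / (n : ℝ))| ≤ 2 := by
    intro r _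
    rw [abs_mul]
    have h1 := js_abs_le r n
    have h2 : |cas (2 * Real.pi * (j : ℝ) * (r : ℝ) / (n : ℝ))| ≤ 2 := by
      unfold cas
      refine (abs_add_le _ _).trans ?_
      have := Real.abs_cos_le_one (2 * Real.pi * (j : ℝ) * (r : ℝ) / (n : ℝ))
      have := Real.abs_sin_le_one (2 * Real.pi * (j : ℝ) * (r : ℝ) / (n : ℝ))
      linarith
    calc _ ≤ (1 : ℝ) * 2 := mul_le_mul h1 h2 (abs_nonneg _) zero_le_one
      _ = 2 := by norm_num
  refine (Finset.sum_le_card_nsmul _ _ _ h).trans ?_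
  simp
  linarith

lemma alg {n : ℕ} (hn : (0 : ℝ) < n) {K : ℝ} (hK : 0 < K) (r : ℕ) (t : ℤ) :
    (((r : ℤ) + (n : ℤ) * t : ℤ) : ℝ) / K = ((r : ℝ) / n + t) / (K / n) := by
  rw [Int.cast_add, Int.cast_mul, Int.cast_natCast, Int.cast_natCast]
  field_simp

lemma cas_abs_le (t : ℝ) : |cas t| ≤ 2 := by
  unfold cas
  refine (abs_add_le _ _).trans ?_
  have := Real.abs_cos_le_one t
  have := Real.abs_sin_le_one t
  linarith

/-- Poisson summation with `cas` -/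
lemma poisson_cas {c : ℝ} (hc : 0 < c) (y : ℝ) :
    ∑' m : ℤ, Real.exp (-(Real.pi * ((y + m) / c) ^ 2)) =
      c * ∑' j : ℤ, Real.exp (-(Real.pi * ((j : ℝ) * c) ^ 2)) * cas (2 * Real.pi * j * y) := by
  have e5 : Summable (fun j : ℤ => Real.exp (-(Real.pi * ((j : ℝ) * c) ^ 2)) *
      Real.cos (2 * Real.pi * j * y)) := by
    refine Summable.of_norm_bounded (gauss_summable hc) fun k => ?_
    rw [norm_mul, Real.norm_eq_abs, Real.norm_eq_abs, Real.abs_exp]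
    exact mul_le_of_le_one_right (Real.exp_pos _).le (Real.abs_cos_le_one _)
  have e6 : Summable (fun j : ℤ => Real.exp (-(Real.pi * ((j : ℝ) * c) ^ 2)) *
      Real.sin (2 * Real.pi * j * y)) := by
    refine Summable.of_norm_bounded (gauss_summable hc) fun k => ?_
    rw [norm_mul, Real.norm_eq_abs, Real.norm_eq_abs, Real.abs_exp]
    exact mul_le_of_le_one_right (Real.exp_pos _).le (Real.abs_sin_le_one _)
  have e7 : ∑' j : ℤ, Real.exp (-(Real.pi * ((j : ℝ) * c) ^ 2)) *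
      Real.sin (2 * Real.pi * j * y) = 0 := by
    have h1 : ∑' j : ℤ, Real.exp (-(Real.pi * ((j : ℝ) * c) ^ 2)) *
        Real.sin (2 * Real.pi * j * y) = ∑' j : ℤ, Real.exp (-(Real.pi * (((-j : ℤ) : ℝ) * c) ^ 2)) *
        Real.sin (2 * Real.pi * ((-j : ℤ) : ℝ) * y) := ((Equiv.neg ℤ).tsum_eq (fun j : ℤ =>
          Real.exp (-(Real.pi * ((j : ℝ) * c) ^ 2)) * Real.sin (2 * Real.pi * j * y))).symm
    have h2 : ∑' j : ℤ, Real.exp (-(Real.pi * (((-j : ℤ) : ℝ) * c) ^ 2)) *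
        Real.sin (2 * Real.pi * ((-j : ℤ) : ℝ) * y) =
        -∑' j : ℤ, Real.exp (-(Real.pi * ((j : ℝ) * c) ^ 2)) * Real.sin (2 * Real.pi * j * y) := by
      rw [← tsum_neg]
      refine tsum_congr fun j => ?_
      rw [Int.cast_neg, show 2 * Real.pi * -(j : ℝ) * y = -(2 * Real.pi * j * y) by ring,
        Real.sin_neg, show (-(j : ℝ) * c) ^ 2 = ((j : ℝ) * c) ^ 2 by ring]
      ring
    linarith
  rw [poisson hc]
  congr 1
  rw [← add_zero (∑' j : ℤ, Real.exp (-(Real.pi * ((j : ℝ) * c) ^ 2)) *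
    Real.cos (2 * Real.pi * j * y)), ← e7, ← e5.tsum_add e6]
  refine tsum_congr fun j => ?_
  unfold cas
  ring

/-- splitting into residue classes -/
lemma split_sum {n : ℕ} [NeZero n] (hnR : (0 : ℝ) < n) {K : ℝ} (hK : 0 < K)
    (hs1 : Summable (fun k : ℤ => js k n * Real.exp (-(Real.pi * (k / K) ^ 2)))) :
    ∑' k : ℤ, js k n * Real.exp (-(Real.pi * (k / K) ^ 2)) = ∑ r ∈ range n, js (r : ℤ) n *
      ∑' t : ℤ, Real.exp (-(Real.pi * (((r : ℝ) / n + t) / (K / n)) ^ 2)) := by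
  have e3 : ∑' m : ℤ, js m n * Real.exp (-(Real.pi * (m / K) ^ 2)) =
      ∑' p : Fin n × ℤ, js (p.2 * n + (p.1 : ℕ)) n *
        Real.exp (-(Real.pi * (((p.2 * n + (p.1 : ℕ) : ℤ) : ℝ) / K) ^ 2)) := by
    rw [← (Int.divModEquiv n).symm.tsum_eq (fun m : ℤ => js m n *
      Real.exp (-(Real.pi * (m / K) ^ 2))), ← (Equiv.prodComm (Fin n) ℤ).tsum_eq]
    rfl
  have hsum2 : Summable (fun p : Fin n × ℤ => js (p.2 * n + (p.1 : ℕ)) n *
        Real.exp (-(Real.pi * (((p.2 * n + (p.1 : ℕ) : ℤ) : ℝ) / K) ^ 2))) := by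
    have h1 := (Int.divModEquiv n).symm.summable_iff.2 hs1
    exact (Equiv.prodComm (Fin n) ℤ).summable_iff.2 h1
  rw [e3, hsum2.tsum_prod, tsum_fintype,
    ← Fin.sum_univ_eq_sum_range (fun r => js (r : ℤ) n *
      ∑' t : ℤ, Real.exp (-(Real.pi * (((r : ℝ) / n + t) / (K / n)) ^ 2)))]
  refine Finset.sum_congr rfl fun r _ => ?_
  rw [← tsum_mul_left]
  refine tsum_congr fun t => ?_
  show js (t * n + (r : ℕ)) n * Real.exp (-(Real.pi * (((t * n + (r : ℕ) : ℤ) : ℝ) / K) ^ 2)) = _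
  rw [show (t * n + ((r : ℕ) : ℤ)) = ((r : ℕ) : ℤ) + n * t by ring,
    Pool.Agent.H509R2.RZP1.js_add_mul, alg hnR hK]

theorem T2 (n : ℕ) (hn : Odd n) (K : ℝ) (hK : 0 < K) :
    Summable (fun k : ℤ => js k n * Real.exp (-(Real.pi * (k / K) ^ 2))) ∧
    Summable (fun j : ℤ => Gk j n * Real.exp (-(Real.pi * (j * K / n) ^ 2))) ∧
    ∑' k : ℤ, js k n * Real.exp (-(Real.pi * (k / K) ^ 2)) =
      K / n * ∑' j : ℤ, Gk j n * Real.exp (-(Real.pi * (j * K / n) ^ 2)) := by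
  have hn0 : n ≠ 0 := by rintro rfl; exact absurd hn (by decide)
  have : NeZero n := ⟨hn0⟩
  have hnR : (0 : ℝ) < n := by exact_mod_cast Nat.pos_of_ne_zero hn0
  have hc : 0 < K / n := by positivity
  have hg1 : Summable (fun k : ℤ => Real.exp (-(Real.pi * (k / K) ^ 2))) := by
    refine (gauss_summable (inv_pos.2 hK)).congr fun k => ?_
    rw [div_eq_mul_inv]
  have hg2 : Summable (fun j : ℤ => Real.exp (-(Real.pi * (j * K / n) ^ 2))) := by
    refine (gauss_summable hc).congr fun k => ?_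
    rw [mul_div_assoc]
  have hs1 : Summable (fun k : ℤ => js k n * Real.exp (-(Real.pi * (k / K) ^ 2))) := by
    refine Summable.of_norm_bounded (g := fun k : ℤ => Real.exp (-(Real.pi * (k / K) ^ 2))) hg1
      fun k => ?_
    rw [norm_mul, Real.norm_eq_abs, Real.norm_eq_abs, Real.abs_exp]
    exact mul_le_of_le_one_left (Real.exp_pos _).le (js_abs_le k n)
  have hs2 : Summable (fun j : ℤ => Gk j n * Real.exp (-(Real.pi * (j * K / n) ^ 2))) := by
    refine Summable.of_norm_bounded (g := fun k : ℤ => 2 * n * Real.exp (-(Real.pi * (k * K / n) ^ 2)))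
      (hg2.mul_left _) fun k => ?_
    rw [norm_mul, Real.norm_eq_abs, Real.norm_eq_abs, Real.abs_exp]
    exact mul_le_mul_of_nonneg_right (Gk_abs_le k n) (Real.exp_pos _).le
  refine ⟨hs1, hs2, ?_⟩
  have e8 : ∀ r ∈ range n, js (r : ℤ) n *
      ∑' t : ℤ, Real.exp (-(Real.pi * (((r : ℝ) / n + t) / (K / n)) ^ 2)) =
      K / n * ∑' j : ℤ, Real.exp (-(Real.pi * ((j : ℝ) * (K / n)) ^ 2)) *
        (js (r : ℤ) n * cas (2 * Real.pi * (j : ℝ) * (r : ℝ) / (n : ℝ))) := by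
    intro r _
    rw [poisson_cas hc, mul_left_comm, ← tsum_mul_left]
    congr 1
    refine tsum_congr fun j => ?_
    rw [mul_div_assoc]
    ring
  rw [split_sum hnR hK hs1, Finset.sum_congr rfl e8, ← Finset.mul_sum, ← Summable.tsum_finsetSum]
  · congr 1
    refine tsum_congr fun j => ?_
    rw [← Finset.mul_sum, mul_comm]
    unfold Gk
    rw [mul_div_assoc]
  · intro r _
    refine Summable.of_norm_bounded (g := fun j : ℤ => Real.exp (-(Real.pi * ((j : ℝ) * (K / n)) ^ 2)) * 2)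
      ((gauss_summable hc).mul_right _) fun k => ?_
    rw [norm_mul, Real.norm_eq_abs, Real.norm_eq_abs, Real.abs_exp]
    refine mul_le_mul_of_nonneg_left ?_ (Real.exp_pos _).le
    rw [abs_mul]
    calc _ ≤ (1 : ℝ) * 2 := mul_le_mul (js_abs_le r n) (cas_abs_le _) (abs_nonneg _) zero_le_one
      _ = 2 := by norm_num

end

end Pool.Agent.Y494.QT2
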